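import Pool.Agent.U610.PC.StmC

/-!
# Project PC (helper610), package MAINC (helper15), after helper373's proof of MAIN
-/

set_option autoImplicit false

namespace Pool.Agent.U15.PC

open Polynomial Pool.Agent.TH766.HP Pool.Agent.TH783.CE Pool.Agent.U610.PC

lemma zeros_finite {n : ℕ} (D : Fin n → ℤ[X]) (hD : ∀ i, D i ≠ 0) :
    {a : ℚ | ∃ i, aeval a (D i) = 0}.Finite := by
  have h : {a : ℚ | ∃ i, aeval a (D i) = 0} = ⋃ i, {a : ℚ | aeval a (D i) = 0} := by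
    ext a
    simp
  rw [h]
  refine Set.finite_iUnion (fun i => ?_)
  have hne : (D i).map (Int.castRingHom ℚ) ≠ 0 := by
    rw [Ne, Polynomial.map_eq_zero_iff (RingHom.injective_int _)]
    exact hD i
  refine (Polynomial.finite_setOfPred_isRoot hne).subset (fun a ha => ?_)
  have ha' : aeval a (D i) = 0 := ha
  show ((D i).map (Int.castRingHom ℚ)).IsRoot a
  rw [Polynomial.IsRoot.def, Polynomial.eval_map]
  exact ha'

lemma iso_cast {n : ℕ} (D : Fin n → ℤ[X]) (u : ℤ) (p : ℕ) [Fact p.Prime]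
    (h : Iso fun i => (aeval ((u : ℤ) : ℚ) (D i) : ℚ)) :
    Iso fun i => (((D i).eval u : ℤ) : ℚ_[p]) := by
  obtain ⟨y, hy, hs⟩ := h
  refine ⟨fun i => ((y i : ℚ) : ℚ_[p]), ?_, ?_⟩
  · intro h0
    apply hy
    funext i
    have h1 := congrFun h0 i
    simp only [Pi.zero_apply] at h1
    exact_mod_cast h1
  · have e : ∀ i, (aeval ((u : ℤ) : ℚ) (D i) : ℚ) = (((D i).eval u : ℤ) : ℚ) := by
      intro i
      have := Polynomial.aeval_algebraMap_apply_eq_algebraMap_eval (A := ℚ) u (D i)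
      simpa using this
    have h2 : ((∑ i, (((D i).eval u : ℤ) : ℚ) * y i ^ 2 : ℚ) : ℚ_[p]) = 0 := by
      have h3 : ∑ i, (((D i).eval u : ℤ) : ℚ) * y i ^ 2 = 0 := by
        rw [← hs]
        refine Finset.sum_congr rfl (fun i _ => ?_)
        show _ = (aeval ((u : ℤ) : ℚ) (D i) : ℚ) * y i ^ 2
        rw [e i]
      rw [h3]
      simp
    push_cast at h2
    exact h2

/-- the four types of one equation -/
lemma cls (hD : S_DICH) (hR : S_RK2) (hG : S_DIAG) {m : ℕ}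
    (A : Matrix (Fin (m + 1)) (Fin (m + 1)) ℚ[X]) (hA : A.IsSymm) :
    (∃ E : Set ℚ, E.Finite ∧ ∀ a : ℚ, a ∉ E → Sol A a) ∨
    (∃ Z : Set ℚ, Thin Z ∧ ∀ a : ℚ, a ∉ Z → ¬ Sol A a) ∨
    (∃ (n : ℕ) (D : Fin n → ℤ[X]) (E : Set ℚ), 3 ≤ n ∧ (∀ i, D i ≠ 0) ∧ Good D ∧ E.Finite ∧
      ∀ a : ℚ, a ∉ E → (Sol A a ↔ Iso fun i => (aeval a (D i) : ℚ))) ∨
    (∃ (n : ℕ) (D : Fin n → ℤ[X]) (E : Set ℚ), Obstr D ∧ E.Finite ∧
      ∀ a : ℚ, a ∉ E → Sol A a → Iso fun i => (aeval a (D i) : ℚ)) := by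
  rcases hG m A hA with h | ⟨n, D, hD0, hF⟩
  · refine Or.inl ⟨_, h, fun b hb => ?_⟩
    by_contra hc
    exact hb hc
  · set F : Set ℚ := {a : ℚ | ¬ ((∃ y : Fin (m + 1) → ℚ, y 0 = 1 ∧
      y ⬝ᵥ (A.map (Polynomial.eval a)).mulVec y = 0) ↔
        Iso fun i => (aeval a (D i) : ℚ))} with hFdef
    have hiff : ∀ a : ℚ, a ∉ F → (Sol A a ↔ Iso fun i => (aeval a (D i) : ℚ)) := by
      intro a ha
      by_contra hc
      exact ha hc
    rcases Nat.lt_or_ge 2 n with hn | hn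
    · rcases hD n hn D hD0 with hgood | hobs
      · exact Or.inr (Or.inr (Or.inl ⟨n, D, F, hn, hD0, hgood, hF, hiff⟩))
      · exact Or.inr (Or.inr (Or.inr ⟨n, D, F, hobs, hF, fun a ha => (hiff a ha).1⟩))
    · rcases hR n hn D hD0 with hthin | hfin
      · refine Or.inr (Or.inl ⟨F ∪ {a : ℚ | Iso fun i => (aeval a (D i) : ℚ)},
          (Thin.of_finite hF).union hthin, ?_⟩)
        intro a ha hsol
        exact ha (Or.inr ((hiff a (fun h => ha (Or.inl h))).1 hsol))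
      · refine Or.inl ⟨F ∪ {a : ℚ | ¬ Iso fun i => (aeval a (D i) : ℚ)}, hF.union hfin,
          fun b hb => ?_⟩
        refine (hiff b (fun h => hb (Or.inl h))).2 ?_
        by_contra hc
        exact hb (Or.inr hc)

/-- the dichotomy for one conjunction -/
lemma claimC (hD : S_DICH) (hP : S_PERTC) (hR : S_RK2) (hG : S_DIAG) {Q : Set ℕ} (hQ : Rich Q)
    {c : ℕ} {m : Fin c → ℕ} (A : ∀ j, Matrix (Fin (m j + 1)) (Fin (m j + 1)) ℚ[X])
    (hA : ∀ j, (A j).IsSymm)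
    (hpole : ∀ a : ℚ, (∀ j, Sol (A j) a) →
      ∀ (p : ℕ) [Fact p.Prime], p ∈ Q → ‖(a : ℚ_[p])‖ ≤ 1) :
    ∃ Z : Set ℚ, Thin Z ∧ ((∀ a : ℚ, a ∉ Z → ¬ ∀ j, Sol (A j) a) ∨
      ∃ (n : ℕ) (D : Fin n → ℤ[X]), Obstr D ∧
        ∀ a : ℚ, a ∉ Z → (∀ j, Sol (A j) a) → Iso fun i => (aeval a (D i) : ℚ)) := by
  classical
  by_cases ht : ∃ j, ∃ Z : Set ℚ, Thin Z ∧ ∀ a : ℚ, a ∉ Z → ¬ Sol (A j) a
  · obtain ⟨j, Z, hZ, h⟩ := ht
    exact ⟨Z, hZ, Or.inl fun a ha hall => h a ha (hall j)⟩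
  by_cases ho : ∃ j, ∃ (n : ℕ) (D : Fin n → ℤ[X]) (E : Set ℚ), Obstr D ∧ E.Finite ∧
      ∀ a : ℚ, a ∉ E → Sol (A j) a → Iso fun i => (aeval a (D i) : ℚ)
  · obtain ⟨j, n, D, E, hobs, hE, h⟩ := ho
    exact ⟨E, Thin.of_finite hE, Or.inr ⟨n, D, hobs, fun a ha hall => h a ha (hall j)⟩⟩
  push Not at ht ho
  obtain ⟨P, hP'⟩ : ∃ P : Fin c → Prop, ∀ j, P j ↔
      ∃ E : Set ℚ, E.Finite ∧ ∀ a : ℚ, a ∉ E → Sol (A j) a := ⟨_, fun j => Iff.rfl⟩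
  have hc : ∀ j : {j : Fin c // P j}, ∃ E : Set ℚ, E.Finite ∧ ∀ a : ℚ, a ∉ E → Sol (A j.1) a :=
    fun j => (hP' j.1).1 j.2
  have hg : ∀ j : {j : Fin c // ¬ P j}, ∃ (n : ℕ) (D : Fin n → ℤ[X]) (E : Set ℚ), 3 ≤ n ∧
      (∀ i, D i ≠ 0) ∧ Good D ∧ E.Finite ∧
      ∀ a : ℚ, a ∉ E → (Sol (A j.1) a ↔ Iso fun i => (aeval a (D i) : ℚ)) := by
    intro j
    rcases cls hD hR hG (A j.1) (hA j.1) with h | ⟨Z, hZ, h⟩ | h | ⟨n, D, E, h1, h2, h3⟩
    · exact absurd ((hP' j.1).2 h) j.2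
    · obtain ⟨a, ha, ha'⟩ := ht j.1 Z hZ
      exact absurd ha' (h a ha)
    · exact h
    · obtain ⟨a, ha, ha', ha''⟩ := ho j.1 n D E h1 h2
      exact absurd (h3 a ha ha') ha''
  choose E1 hE1 hE1' using hc
  choose n D E2 hn hD0 hgood hE2 hiff using hg
  have hfin1 : ((⋃ j, E1 j) ∪ ⋃ j, E2 j).Finite :=
    (Set.finite_iUnion hE1).union (Set.finite_iUnion hE2)
  have hfin2 : (⋃ j, {a : ℚ | ∃ i, aeval a (D j i) = 0}).Finite :=
    Set.finite_iUnion fun j => zeros_finite (D j) (hD0 j)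
  refine ⟨((⋃ j, E1 j) ∪ ⋃ j, E2 j) ∪ ⋃ j, {a : ℚ | ∃ i, aeval a (D j i) = 0},
    Thin.of_finite (hfin1.union hfin2), Or.inl ?_⟩
  intro a ha hall
  have ha1 : ∀ j, a ∉ E2 j := fun j h => ha (Or.inl (Or.inr (Set.mem_iUnion.2 ⟨j, h⟩)))
  have ha2 : ∀ j i, aeval a (D j i) ≠ 0 := fun j i h =>
    ha (Or.inr (Set.mem_iUnion.2 ⟨j, ⟨i, h⟩⟩))
  obtain ⟨p, hp, b, hpQ, hb, hbE, hiso⟩ := hP {j : Fin c // ¬ P j} n hn D hgood Q hQ a ha2
    (fun j => (hiff j a (ha1 j)).1 (hall j.1)) _ hfin1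
  refine absurd (hpole b (fun j => ?_) p hpQ) (not_le.2 hb)
  by_cases hj : P j
  · exact hE1' ⟨j, hj⟩ b fun h => hbE (Or.inl (Set.mem_iUnion.2 ⟨⟨j, hj⟩, h⟩))
  · exact (hiff ⟨j, hj⟩ b fun h => hbE (Or.inr (Set.mem_iUnion.2 ⟨⟨j, hj⟩, h⟩))).2 (hiso ⟨j, hj⟩)

/-- **package MAINC** -/
theorem t_MAINC (hD : S_DICH) (hP : S_PERTC) (hR : S_RK2) (hG : S_DIAG) : S_MAINC := by
  intro Q hQ s c m A hsymm hpole
  have hc : ∀ i, ∃ Z : Set ℚ, Thin Z ∧ ((∀ a : ℚ, a ∉ Z → ¬ ∀ j, Sol (A i j) a) ∨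
      ∃ (n : ℕ) (D : Fin n → ℤ[X]), Obstr D ∧
        ∀ a : ℚ, a ∉ Z → (∀ j, Sol (A i j) a) → Iso fun i => (aeval a (D i) : ℚ)) := fun i =>
    claimC hD hP hR hG hQ (A i) (hsymm i) (fun a ha p _ hp => hpole i a ha p hp)
  choose Z hZ hcase using hc
  have hind : ∀ J : Finset (Fin s), ∃ (M : ℕ) (a₀ : ℤ), 0 < M ∧ ∀ u : ℤ, (M : ℤ) ∣ u - a₀ →
      ∀ i ∈ J, ((u : ℤ) : ℚ) ∉ Z i → ¬ ∀ j, Sol (A i j) ((u : ℤ) : ℚ) := by
    classical
    intro J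
    induction J using Finset.induction_on with
    | empty => exact ⟨1, 0, one_pos, fun u _ i hi => absurd hi (Finset.notMem_empty i)⟩
    | insert i J hiJ ih =>
      obtain ⟨M, a₀, hM, hJ⟩ := ih
      rcases hcase i with h | ⟨n, D', hobs, hiso⟩
      · refine ⟨M, a₀, hM, fun u hu j hj hjZ => ?_⟩
        rcases Finset.mem_insert.1 hj with rfl | hj
        · exact h _ hjZ
        · exact hJ u hu j hj hjZ
      · obtain ⟨p, hp, a₁, hpM, hp1⟩ := hobs M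
        have hcop : IsCoprime (M : ℤ) ((p : ℤ) ^ 2) := by
          apply IsCoprime.pow_right
          rw [Nat.isCoprime_iff_coprime]
          exact (Nat.coprime_of_lt_prime hM.ne' hpM hp.out).symm
        obtain ⟨x, y, hxy⟩ := hcop
        refine ⟨M * p ^ 2, a₁ * (x * M) + a₀ * (y * (p : ℤ) ^ 2), by
          have := hp.out.pos
          positivity, fun u hu j hj hjZ => ?_⟩
        have hu' : ((M : ℤ) * (p : ℤ) ^ 2) ∣ u - (a₁ * (x * M) + a₀ * (y * (p : ℤ) ^ 2)) := by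
          have := hu
          push_cast at this
          exact this
        have hu1 : (M : ℤ) ∣ u - a₀ := by
          have h1 : (M : ℤ) ∣ u - (a₁ * (x * M) + a₀ * (y * (p : ℤ) ^ 2)) :=
            (Dvd.intro _ rfl).trans hu'
          have h2 : u - a₀ = (u - (a₁ * (x * M) + a₀ * (y * (p : ℤ) ^ 2))) +
              M * (x * (a₁ - a₀)) := by
            have h3 : y * (p : ℤ) ^ 2 = 1 - x * M := by linarith
            rw [h3]; ring
          rw [h2]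
          exact dvd_add h1 (Dvd.intro _ rfl)
        have hu2 : (p : ℤ) ^ 2 ∣ u - a₁ := by
          have h1 : (p : ℤ) ^ 2 ∣ u - (a₁ * (x * M) + a₀ * (y * (p : ℤ) ^ 2)) :=
            (Dvd.intro_left _ rfl).trans hu'
          have h2 : u - a₁ = (u - (a₁ * (x * M) + a₀ * (y * (p : ℤ) ^ 2))) +
              (p : ℤ) ^ 2 * (y * (a₀ - a₁)) := by
            have h3 : x * (M : ℤ) = 1 - y * (p : ℤ) ^ 2 := by linarith
            rw [h3]; ring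
          rw [h2]
          exact dvd_add h1 (Dvd.intro _ rfl)
        rcases Finset.mem_insert.1 hj with rfl | hj
        · intro hsol
          exact hp1 u hu2 (iso_cast D' u p (hiso _ hjZ hsol))
        · exact hJ u hu1 j hj hjZ
  obtain ⟨M, a₀, hM, hall⟩ := hind Finset.univ
  refine ⟨M, a₀, ⋃ i ∈ (Set.univ : Set (Fin s)), Z i, hM,
    Thin.biUnion Set.finite_univ (fun i _ => hZ i), fun u hMu hu i => ?_⟩
  exact hall u hMu i (Finset.mem_univ i) (fun h => hu (Set.mem_biUnion (Set.mem_univ i) h))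

end Pool.Agent.U15.PC
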